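import Pool.Agent.Q164.ST.Stm

/-!
# Project ST, lemma CODE
-/

set_option autoImplicit false

namespace Pool.Agent.Q162.ST

open Pool.Agent.Q164.ST

theorem exists_index {V : Type} [Fintype V] (s : Set V) (d : ℕ) (hd : 1 ≤ d) (h : s.ncard ≤ d) :
    ∃ e : V → Fin d, Set.InjOn e s := by
  classical
  have h1 : Fintype.card s ≤ Fintype.card (Fin d) := by
    rw [Fintype.card_fin, ← Nat.card_eq_fintype_card, Nat.card_coe_set_eq]
    exact h
  obtain ⟨i⟩ := Function.Embedding.nonempty_of_card_le h1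
  refine ⟨fun v => if hv : v ∈ s then i ⟨v, hv⟩ else ⟨0, hd⟩, fun x hx y hy hxy => ?_⟩
  simp only [dif_pos hx, dif_pos hy] at hxy
  have h2 := i.injective hxy
  exact congrArg Subtype.val h2

theorem task_CODE : S_CODE := by
  classical
  intro V _ r g p K S d hg hp hrK hpK hd hch
  rcases (maps r g p K S).eq_empty_or_nonempty with h0 | ⟨φ₀, hφ₀⟩
  · rw [h0]
    simp
  -- one index function for the siblings
  have hex : ∀ b : V, ∃ e : V → Fin d, Set.InjOn e {y : V | y ≠ r ∧ g y = b} := fun b =>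
    exists_index _ d hd (hch b)
  choose E hE using hex
  let e : V → Fin d := fun y => E (g y) y
  have he : ∀ y y' : V, y ≠ r → y' ≠ r → g y = g y' → e y = e y' → y = y' := by
    intro y y' hy hy' hgy hey
    have h1 : E (g y) y = E (g y) y' := by
      have : E (g y') y' = E (g y) y' := by rw [hgy]
      rw [← this]
      exact hey
    exact hE (g y) ⟨hy, rfl⟩ ⟨hy', hgy.symm⟩ h1
  have hne : ∀ φ ∈ maps r g p K S, ∀ y : K, (y : V) ≠ r → φ y ≠ r := by
    intro φ hφ y hy h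
    have h1 : φ ⟨r, hrK⟩ = r := hφ.1 ⟨r, hrK⟩ rfl
    have h2 : y = ⟨r, hrK⟩ := hφ.2.1 (h.trans h1.symm)
    exact hy (congrArg Subtype.val h2)
  have hpar : ∀ φ ∈ maps r g p K S, ∀ y : K, g (φ y) = φ ⟨p y, hpK y y.2⟩ := by
    intro φ hφ y
    exact (hφ.2.2.1 y ⟨p y, hpK y y.2⟩ rfl).symm
  -- siblings in the core have different indices
  have he' : ∀ y y' : K, (y : V) ≠ r → (y' : V) ≠ r → p y = p y' → e (φ₀ y) = e (φ₀ y') →
      y = y' := by
    intro y y' hy hy' hpy hey
    have h1 : g (φ₀ y) = g (φ₀ y') := by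
      rw [hpar φ₀ hφ₀ y, hpar φ₀ hφ₀ y']
      congr 1
      exact Subtype.ext hpy
    exact hφ₀.2.1 (he _ _ (hne φ₀ hφ₀ y hy) (hne φ₀ hφ₀ y' hy') h1 hey)
  -- the code
  let code : maps r g p K S → (branch r g S → (Fin d → Fin d)) := fun φ b i =>
    if h : ∃ y : K, (y : V) ≠ r ∧ φ.1 ⟨p y, hpK y y.2⟩ = b.1 ∧ e (φ₀ y) = i then
      e (φ.1 h.choose) else ⟨0, hd⟩
  have hcode : ∀ (φ : maps r g p K S) (b : branch r g S) (y : K), (y : V) ≠ r →
      φ.1 ⟨p y, hpK y y.2⟩ = b.1 → code φ b (e (φ₀ y)) = e (φ.1 y) := by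
    intro φ b y hy hb
    have h : ∃ y' : K, (y' : V) ≠ r ∧ φ.1 ⟨p y', hpK y' y'.2⟩ = b.1 ∧ e (φ₀ y') = e (φ₀ y) :=
      ⟨y, hy, hb, rfl⟩
    have h1 : code φ b (e (φ₀ y)) = e (φ.1 h.choose) := by
      simp only [code]
      rw [dif_pos h]
    rw [h1]
    obtain ⟨h2, h3, h4⟩ := h.choose_spec
    have h5 : p h.choose = p y := by
      have := φ.2.2.1 (h3.trans hb.symm)
      exact congrArg Subtype.val this
    rw [he' _ _ h2 hy h5 h4]
  have hinj : Function.Injective code := by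
    intro φ ψ hφψ
    apply Subtype.ext
    funext x
    obtain ⟨hpr, μ, hμ⟩ := hp
    suffices H : ∀ n : ℕ, ∀ x : K, μ x ≤ n → φ.1 x = ψ.1 x from H _ x le_rfl
    have hroot : ∀ x : K, (x : V) = r → φ.1 x = ψ.1 x := by
      intro x hx
      rw [φ.2.1 x hx, ψ.2.1 x hx]
    intro n
    induction n with
    | zero =>
      intro x hx
      by_cases h : (x : V) = r
      · exact hroot x h
      · have := hμ x h
        omega
    | succ n ih =>
      intro x hx
      by_cases h : (x : V) = r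
      · exact hroot x h
      · have h1 := hμ x h
        have h2 := ih ⟨p x, hpK x x.2⟩ (by
          show μ (p x) ≤ n
          omega)
        have g1 := hpar φ.1 φ.2 x
        have g2 := hpar ψ.1 ψ.2 x
        have n1 := hne φ.1 φ.2 x h
        have n2 := hne ψ.1 ψ.2 x h
        by_cases hb : φ.1 ⟨p x, hpK x x.2⟩ ∈ branch r g S
        · have c1 := hcode φ ⟨_, hb⟩ x h rfl
          have c2 := hcode ψ ⟨_, hb⟩ x h h2.symm
          rw [hφψ, c2] at c1
          exact he _ _ n1 n2 (by rw [g1, g2, h2]) c1.symm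
        · have hb' : {y : V | y ≠ r ∧ g y = φ.1 ⟨p x, hpK x x.2⟩ ∧ S ≤ dsz g y}.ncard ≤ 1 := by
            unfold branch at hb
            simp only [Set.mem_setOf_eq, not_le] at hb
            omega
          rw [Set.ncard_le_one_iff] at hb'
          exact hb' ⟨n1, g1, φ.2.2.2.2 x⟩ ⟨n2, by rw [g2, h2], ψ.2.2.2.2 x⟩
  have hcard := Nat.card_le_card_of_injective code hinj
  rw [Nat.card_coe_set_eq, Nat.card_fun, Nat.card_fun, Nat.card_coe_set_eq, Nat.card_fin] at hcard
  exact hcard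

end Pool.Agent.Q162.ST
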