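import Pool.Agent.Q164.ST.Stm

/-!
# Project ST, lemma HEAVY
-/

set_option autoImplicit false

namespace Pool.Agent.Q162.ST

open Pool.Agent.Q164.ST

theorem task_HEAVY : S_HEAVY := by
  classical
  intro V _ r g S hg hS
  -- descendants
  let D : V → Finset V := fun v => Finset.univ.filter (fun y => ∃ k : ℕ, g^[k] y = v)
  have hD : ∀ v, dsz g v = (D v).card := by
    intro v
    unfold dsz
    rw [Set.ncard_eq_toFinset_card']
    congr 1
    ext y
    simp [D]
  have hmem : ∀ v y, y ∈ D v ↔ ∃ k : ℕ, g^[k] y = v := fun v y => by simp [D]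
  have hself : ∀ v, v ∈ D v := fun v => (hmem v v).2 ⟨0, rfl⟩
  have hsub : ∀ x y, y ∈ D x → D y ⊆ D x := by
    intro x y h z hz
    obtain ⟨k, hk⟩ := (hmem _ _).1 h
    obtain ⟨l, hl⟩ := (hmem _ _).1 hz
    refine (hmem _ _).2 ⟨k + l, ?_⟩
    rw [Function.iterate_add_apply, hl, hk]
  -- heavy vertices
  let H : Finset V := Finset.univ.filter (fun v => S ≤ dsz g v)
  have hH : ∀ v, v ∈ H ↔ S ≤ (D v).card := fun v => by simp [H, hD]
  have hchild : ∀ y, y ∈ H → g y ∈ H := by
    intro y hy
    rw [hH] at hy ⊢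
    refine hy.trans (Finset.card_le_card (hsub _ _ ((hmem _ _).2 ⟨1, rfl⟩)))
  let c : V → ℕ := fun x => ((H.erase r).filter (fun y => g y = x)).card
  have hbr : ∀ x, x ∈ branch r g S ↔ 2 ≤ c x := by
    intro x
    unfold branch
    simp only [Set.mem_setOf_eq]
    have : {y : V | y ≠ r ∧ g y = x ∧ S ≤ dsz g y}.ncard = c x := by
      rw [Set.ncard_eq_toFinset_card']
      congr 1
      ext y
      simp only [Set.mem_toFinset, Set.mem_setOf_eq, Finset.mem_filter, Finset.mem_erase, hH, hD]
      tauto
    rw [this]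
  by_cases hne : H.Nonempty
  swap
  · have h0 : branch r g S = ∅ := by
      ext x
      rw [hbr]
      simp only [Set.mem_empty_iff_false, iff_false, not_le]
      have : c x = 0 := by
        rw [Finset.not_nonempty_iff_eq_empty] at hne
        simp [c, hne]
      omega
    rw [h0]
    simp
  have hr : r ∈ H := by
    obtain ⟨v, hv⟩ := hne
    rw [hH] at hv ⊢
    refine hv.trans (Finset.card_le_card ?_)
    intro y _
    exact (hmem _ _).2 (exists_iterate hg y)
  let B : Finset V := H.filter (fun x => 2 ≤ c x)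
  let M : Finset V := H.filter (fun x => c x = 0)
  have hB : branch r g S = ↑B := by
    ext x
    rw [hbr]
    simp only [B, Finset.coe_filter, Set.mem_setOf_eq]
    constructor
    · intro h
      refine ⟨?_, h⟩
      have h1 : 0 < c x := by omega
      obtain ⟨y, hy⟩ := Finset.card_pos.1 h1
      rw [Finset.mem_filter, Finset.mem_erase] at hy
      rw [← hy.2]
      exact hchild y hy.1.2
    · exact fun h => h.2
  have hcount : (H.erase r).card = ∑ x ∈ H, c x := by
    apply Finset.card_eq_sum_card_fiberwise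
    intro y hy
    exact hchild y (Finset.mem_of_mem_erase hy)
  have hsum : H.card + B.card ≤ (∑ x ∈ H, c x) + M.card := by
    rw [Finset.card_eq_sum_ones H, Finset.card_filter, Finset.card_filter,
      ← Finset.sum_add_distrib, ← Finset.sum_add_distrib]
    refine Finset.sum_le_sum fun x _ => ?_
    split_ifs <;> omega
  rw [← hcount, Finset.card_erase_of_mem hr] at hsum
  have hHpos : 0 < H.card := Finset.card_pos.2 hne
  have hBM : B.card ≤ M.card := by omega
  -- disjointness
  have hdisj : ∀ x ∈ M, ∀ x' ∈ M, x ≠ x' → Disjoint (D x) (D x') := by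
    have key : ∀ x ∈ M, ∀ x' ∈ M, x ≠ x' → ∀ j : ℕ, g^[j] x ≠ x' := by
      intro x hx x' hx' hne' j hj
      have hex : ∃ j : ℕ, g^[j] x = x' := ⟨j, hj⟩
      have hmin := Nat.find_spec hex
      set m := Nat.find hex with hm
      have hm0 : m ≠ 0 := by
        intro h0
        rw [h0] at hmin
        exact hne' hmin
      obtain ⟨l, hl⟩ := Nat.exists_eq_succ_of_ne_zero hm0
      rw [hl] at hmin
      have h1 : g (g^[l] x) = x' := by
        rw [← Function.iterate_succ_apply' g l x]
        exact hmin
      have h2 : g^[l] x ≠ r := by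
        intro h2
        rw [h2, hg.1] at h1
        have h3 : g^[l] x = x' := h2.trans h1
        exact Nat.find_min hex (m := l) (by omega) h3
      have h4 : g^[l] x ∈ H := by
        have hxH : x ∈ H := (Finset.mem_filter.1 hx).1
        rw [hH] at hxH ⊢
        exact hxH.trans (Finset.card_le_card (hsub _ _ ((hmem _ _).2 ⟨l, rfl⟩)))
      have h5 : 0 < c x' := Finset.card_pos.2 ⟨g^[l] x, by
        rw [Finset.mem_filter, Finset.mem_erase]
        exact ⟨⟨h2, h4⟩, h1⟩⟩
      have h6 : c x' = 0 := (Finset.mem_filter.1 hx').2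
      omega
    intro x hx x' hx' hne'
    rw [Finset.disjoint_left]
    intro y hy hy'
    obtain ⟨k, hk⟩ := (hmem _ _).1 hy
    obtain ⟨l, hl⟩ := (hmem _ _).1 hy'
    rcases le_total k l with h | h
    · obtain ⟨j, rfl⟩ := Nat.exists_eq_add_of_le h
      rw [add_comm, Function.iterate_add_apply, hk] at hl
      exact key x hx x' hx' hne' j hl
    · obtain ⟨j, rfl⟩ := Nat.exists_eq_add_of_le h
      rw [add_comm, Function.iterate_add_apply, hl] at hk
      exact key x' hx' x hx hne'.symm j hk
  rw [hB, Set.ncard_coe_finset]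
  calc B.card * S ≤ M.card * S := Nat.mul_le_mul_right S hBM
    _ = ∑ x ∈ M, S := by rw [Finset.sum_const, smul_eq_mul]
    _ ≤ ∑ x ∈ M, (D x).card := Finset.sum_le_sum fun x hx =>
        (hH x).1 (Finset.mem_filter.1 hx).1
    _ = (M.biUnion D).card := (Finset.card_biUnion hdisj).symm
    _ ≤ Fintype.card V := Finset.card_le_univ _

end Pool.Agent.Q162.ST
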