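import Pool.Agent.Q164.ST.Stm

/-!
# Project ST, lemmas TREE, PARE, RIG
-/

set_option autoImplicit false

namespace Pool.Agent.Q162.ST

open Pool.Agent.Q164.ST

theorem reach_root {V : Type} {r : V} {f : V → V} (hf : IsPar r f) (v : V) :
    (tr f).Reachable v r := by
  have hf' := hf
  obtain ⟨_, μ, hμ⟩ := hf'
  suffices h : ∀ n : ℕ, ∀ v, μ v ≤ n → (tr f).Reachable v r from h _ v le_rfl
  intro n
  induction n with
  | zero =>
    intro v hv
    by_cases h : v = r
    · rw [h]
    · have := hμ v h
      omega
  | succ n ih =>
    intro v hv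
    by_cases h : v = r
    · rw [h]
    · have h1 := hμ v h
      exact (tr_adj_par hf h).reachable.trans (ih (f v) (by omega))

theorem task_TREE : S_TREE := by
  classical
  intro V _ r f hf
  rw [SimpleGraph.isTree_iff_connected_and_card]
  refine ⟨SimpleGraph.connected_iff_exists_forall_reachable _ |>.2
    ⟨r, fun w => (reach_root hf w).symm⟩, ?_⟩
  let e : {v : V // v ≠ r} → (tr f).edgeSet := fun v => ⟨s(v.1, f v.1), by
    rw [SimpleGraph.mem_edgeSet]
    exact tr_adj_par hf v.2⟩
  have he : Function.Bijective e := by
    obtain ⟨_, μ, hμ⟩ := hf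
    constructor
    · intro v w h
      have h1 : s(v.1, f v.1) = s(w.1, f w.1) := congrArg Subtype.val h
      rw [Sym2.eq_iff] at h1
      rcases h1 with ⟨h1, _⟩ | ⟨h1, h2⟩
      · exact Subtype.ext h1
      · have h3 := hμ v.1 v.2
        have h4 := hμ w.1 w.2
        rw [h2] at h3
        rw [← h1] at h4
        omega
    · rintro ⟨s, hs⟩
      induction s with
      | _ x y =>
        rw [SimpleGraph.mem_edgeSet, tr_adj] at hs
        obtain ⟨hne, h | h⟩ := hs
        · have hx : x ≠ r := by
            intro hx
            rw [hx] at h hne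
            rw [‹f r = r›] at h
            exact hne h
          refine ⟨⟨x, hx⟩, Subtype.ext ?_⟩
          show s(x, f x) = s(x, y)
          rw [h]
        · have hy : y ≠ r := by
            intro hy
            rw [hy] at h hne
            rw [‹f r = r›] at h
            exact hne h.symm
          refine ⟨⟨y, hy⟩, Subtype.ext ?_⟩
          show s(y, f y) = s(x, y)
          rw [h]
          exact Sym2.eq_swap
  rw [← Nat.card_congr (Equiv.ofBijective e he), ← Finite.card_option,
    Nat.card_congr (Equiv.optionSubtypeNe r)]

/-- Every tree with a chosen root comes from a parent function. -/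
theorem task_PARE (hT : S_TREE) : S_PARE := by
  classical
  intro V _ T r hTree
  have hex : ∀ v : V, v ≠ r → ∃ w, T.Adj v w ∧ T.dist w r < T.dist v r := by
    intro v hv
    obtain ⟨p, hp⟩ := hTree.connected.exists_walk_length_eq_dist v r
    cases p with
    | nil => exact absurd rfl hv
    | @cons _ w _ h q =>
      refine ⟨w, h, ?_⟩
      have h1 := SimpleGraph.dist_le q
      rw [SimpleGraph.Walk.length_cons] at hp
      omega
  let f : V → V := fun v => if h : v = r then r else (hex v h).choose
  have hfr : f r = r := by simp [f]
  have hfa : ∀ v, v ≠ r → T.Adj v (f v) ∧ T.dist (f v) r < T.dist v r := by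
    intro v hv
    have : f v = (hex v hv).choose := by simp [f, hv]
    rw [this]
    exact (hex v hv).choose_spec
  have hf : IsPar r f := ⟨hfr, fun v => T.dist v r, fun v hv => (hfa v hv).2⟩
  refine ⟨f, hf, ?_⟩
  have hle : tr f ≤ T := by
    intro x y hxy
    rw [tr_adj] at hxy
    obtain ⟨hne, h | h⟩ := hxy
    · have hx : x ≠ r := by
        intro hx
        rw [hx, hfr] at h
        exact hne (hx.trans h)
      rw [← h]
      exact (hfa x hx).1
    · have hy : y ≠ r := by
        intro hy
        rw [hy, hfr] at h
        exact hne (h.symm.trans hy.symm)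
      rw [← h]
      exact (hfa y hy).1.symm
  have h1 := (SimpleGraph.isTree_iff_connected_and_card.1 hTree).2
  have h2 := (SimpleGraph.isTree_iff_connected_and_card.1 (hT V r f hf)).2
  have h3 : (tr f).edgeSet = T.edgeSet := by
    apply Set.eq_of_subset_of_ncard_le (SimpleGraph.edgeSet_mono hle)
    rw [Nat.card_coe_set_eq] at h1 h2
    omega
  exact (SimpleGraph.edgeSet_inj.1 h3).symm

/-- A graph isomorphism which respects the roots commutes with the parent functions. -/
theorem task_RIG : S_RIG := by
  intro V r r' f g hf hg π hπ
  have hf' := hf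
  obtain ⟨hfr, μ, hμ⟩ := hf'
  suffices h : ∀ n : ℕ, ∀ v, μ v ≤ n → π (f v) = g (π v) from fun v => h _ v le_rfl
  intro n
  induction n with
  | zero =>
    intro v hv
    by_cases h : v = r
    · rw [h, hfr, hπ, hg.1]
    · have := hμ v h
      omega
  | succ n ih =>
    intro v hv
    by_cases h : v = r
    · rw [h, hfr, hπ, hg.1]
    · have h1 := hμ v h
      have h2 : (tr g).Adj (π v) (π (f v)) := π.map_adj_iff.2 (tr_adj_par hf h)
      rw [tr_adj] at h2
      obtain ⟨_, h3 | h3⟩ := h2
      · exact h3.symm
      · exfalso
        have h4 : f v ≠ r := by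
          intro h4
          rw [h4, hπ, hg.1] at h3
          exact h (π.injective (h3.symm.trans hπ.symm))
        have h5 := ih (f v) (by omega)
        rw [h3] at h5
        have h6 := π.injective h5
        have h7 := hμ (f v) h4
        rw [h6] at h7
        omega

end Pool.Agent.Q162.ST
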