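import Pool.Agent.Q164.ST.Stm

/-!
# Project ST, lemma TWO
-/

set_option autoImplicit false

namespace Pool.Agent.Q162.ST

open Pool.Agent.Q164.ST

section
variable {V : Type} [Fintype V] [DecidableEq V]

/-- number of children, as an integer -/
def ch (r : V) (f : V → V) (v : V) : ℤ :=
  ∑ w : V, if w ≠ r ∧ f w = v then 1 else 0

/-- the degree, as an integer -/
def dg (r : V) (f : V → V) (v : V) : ℤ := ch r f v + if v = r then 0 else 1

theorem ch_update {r : V} {f : V → V} {x : V} (hx : x ≠ r) (v : V) :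
    ch r (Function.update f x r) v = ch r f v + (if v = r then 1 else 0) -
      (if v = f x then 1 else 0) := by
  unfold ch
  rw [← Finset.add_sum_erase Finset.univ _ (Finset.mem_univ x),
    ← Finset.add_sum_erase Finset.univ (fun w => if w ≠ r ∧ f w = v then (1 : ℤ) else 0)
      (Finset.mem_univ x)]
  have h1 : ∑ w ∈ Finset.univ.erase x, (if w ≠ r ∧ Function.update f x r w = v then (1 : ℤ) else 0) =
      ∑ w ∈ Finset.univ.erase x, (if w ≠ r ∧ f w = v then (1 : ℤ) else 0) := by
    refine Finset.sum_congr rfl fun w hw => ?_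
    rw [Function.update_of_ne (Finset.ne_of_mem_erase hw)]
  rw [h1, Function.update_self]
  have e1 : (x ≠ r ∧ r = v) ↔ v = r := ⟨fun h => h.2.symm, fun h => ⟨hx, h.symm⟩⟩
  have e2 : (x ≠ r ∧ f x = v) ↔ v = f x := ⟨fun h => h.2.symm, fun h => ⟨hx, h.symm⟩⟩
  simp only [e1, e2]
  ring

theorem dg_update {r : V} {f : V → V} {x : V} (hx : x ≠ r) (v : V) :
    dg r (Function.update f x r) v = dg r f v + (if v = r then 1 else 0) -
      (if v = f x then 1 else 0) := by
  unfold dg
  rw [ch_update hx]
  ring

theorem isPar_update {r : V} {f : V → V} (hf : IsPar r f) {x : V} (hx : x ≠ r) :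
    IsPar r (Function.update f x r) := by
  obtain ⟨hr, μ, hμ⟩ := hf
  refine ⟨by rw [Function.update_of_ne hx.symm]; exact hr,
    fun v => if v = r then 0 else μ v + 1, fun v hv => ?_⟩
  simp only [if_neg hv]
  by_cases h : v = x
  · rw [h, Function.update_self, if_pos rfl]
    omega
  · rw [Function.update_of_ne h]
    have h1 := hμ v hv
    split_ifs <;> omega

theorem update_le {r : V} {f : V → V} {G : SimpleGraph V} (hG : tr f ≤ G) {x : V}
    (hx : G.Adj x r) : tr (Function.update f x r) ≤ G := by
  intro a b hab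
  rw [tr_adj] at hab
  obtain ⟨hne, h | h⟩ := hab
  · by_cases ha : a = x
    · rw [ha, Function.update_self] at h
      rw [ha, ← h]
      exact hx
    · rw [Function.update_of_ne ha] at h
      exact hG (tr_adj.2 ⟨hne, Or.inl h⟩)
  · by_cases hb : b = x
    · rw [hb, Function.update_self] at h
      rw [hb, ← h]
      exact hx.symm
    · rw [Function.update_of_ne hb] at h
      exact hG (tr_adj.2 ⟨hne, Or.inr h⟩)

/-- the degree formula -/
theorem dg_eq {r : V} {f : V → V} (hf : IsPar r f) (v : V) :
    (((tr f).neighborSet v).ncard : ℤ) = dg r f v := by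
  have h1 : ch r f v = (({w : V | w ≠ r ∧ f w = v}.ncard : ℕ) : ℤ) := by
    unfold ch
    rw [Finset.sum_boole, Set.ncard_eq_toFinset_card']
    congr 2
    ext w
    simp
  unfold dg
  rw [h1]
  by_cases hv : v = r
  · rw [if_pos hv, add_zero]
    congr 2
    ext w
    rw [SimpleGraph.mem_neighborSet, tr_adj]
    simp only [Set.mem_setOf_eq]
    constructor
    · rintro ⟨hne, h | h⟩
      · rw [hv, hf.1] at h
        exact absurd (hv.trans h) hne
      · exact ⟨fun hw => hne (hv.trans hw.symm), h⟩
    · rintro ⟨h2, h3⟩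
      exact ⟨fun h => h2 (h.symm.trans hv), Or.inr h3⟩
  · rw [if_neg hv]
    have h2 : (tr f).neighborSet v = insert (f v) {w : V | w ≠ r ∧ f w = v} := by
      ext w
      rw [SimpleGraph.mem_neighborSet, tr_adj]
      simp only [Set.mem_insert_iff, Set.mem_setOf_eq]
      constructor
      · rintro ⟨hne, h | h⟩
        · exact Or.inl h.symm
        · refine Or.inr ⟨?_, h⟩
          intro hw
          rw [hw, hf.1] at h
          exact hv h.symm
      · rintro (h | ⟨h, h'⟩)
        · rw [h]
          exact ⟨(ne_par hf hv).symm, Or.inl rfl⟩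
        · refine ⟨?_, Or.inr h'⟩
          intro hvw
          have := ne_par hf h
          rw [← hvw] at this h'
          exact this h'
    have h3 : f v ∉ {w : V | w ≠ r ∧ f w = v} := by
      rintro ⟨h4, h5⟩
      obtain ⟨_, μ, hμ⟩ := hf
      have h6 := hμ v hv
      have h7 := hμ (f v) h4
      rw [h5] at h7
      omega
    rw [h2, Set.ncard_insert_of_notMem h3]
    push_cast
    rfl

/-- sum of the squares of the degrees -/
theorem iso_sq {T T' : SimpleGraph V} (π : T ≃g T') :
    ∑ v, (((T.neighborSet v).ncard : ℕ) : ℤ) ^ 2 = ∑ v, (((T'.neighborSet v).ncard : ℕ) : ℤ) ^ 2 := by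
  rw [← Equiv.sum_comp π.toEquiv (fun v => (((T'.neighborSet v).ncard : ℕ) : ℤ) ^ 2)]
  refine Finset.sum_congr rfl fun v _ => ?_
  congr 2
  rw [← Nat.card_coe_set_eq, ← Nat.card_coe_set_eq]
  exact Nat.card_congr (π.mapNeighborSet v)

theorem dg_sq_iso {r : V} {f g : V → V} (hf : IsPar r f) (hg : IsPar r g)
    (h : Nonempty (tr f ≃g tr g)) : ∑ v, dg r f v ^ 2 = ∑ v, dg r g v ^ 2 := by
  obtain ⟨π⟩ := h
  have h1 := iso_sq π
  simp_rw [dg_eq hf, dg_eq hg] at h1
  exact h1

end

theorem task_TWO (hTree : S_TREE) (hPare : S_PARE) : S_TWO := by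
  classical
  intro V _ G hG hdeg
  by_contra hcon
  push Not at hcon
  have hiso : ∀ T T' : SimpleGraph V, T ≤ G → T' ≤ G → T.IsTree → T'.IsTree →
      Nonempty (T ≃g T') := by
    intro T T' h1 h2 h3 h4
    exact not_isEmpty_iff.1 (by simpa using hcon T T' h1 h2 h3 h4)
  obtain ⟨T, hTG, hT⟩ := hG.exists_isTree_le
  have hnt : Nontrivial V := by
    obtain ⟨v⟩ := hG.nonempty
    have h1 := hdeg v
    have h2 : (G.neighborSet v).Nonempty := by
      rw [← Set.ncard_pos]
      omega
    obtain ⟨w, hw⟩ := h2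
    exact ⟨v, w, (G.ne_of_adj hw)⟩
  obtain ⟨r, hr⟩ := hT.exists_vert_degree_one_of_nontrivial
  obtain ⟨f, hf, hTf⟩ := hPare V T r hT
  have hr1 : ((tr f).neighborSet r).ncard = 1 := by
    rw [← hTf, ← hr, ← SimpleGraph.card_neighborSet_eq_degree, ← Nat.card_eq_fintype_card,
      Nat.card_coe_set_eq]
  have hfG : tr f ≤ G := by
    rw [← hTf]
    exact hTG
  -- two further neighbours of the root
  have hset : 1 < (G.neighborSet r \ (tr f).neighborSet r).ncard := by
    have h1 := Set.le_ncard_sdiff ((tr f).neighborSet r) (G.neighborSet r)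
    have h2 := hdeg r
    omega
  rw [Set.one_lt_ncard_iff] at hset
  obtain ⟨x, y, hx, hy, hxy⟩ := hset
  have hgen : ∀ w, w ∈ G.neighborSet r \ (tr f).neighborSet r → w ≠ r ∧ G.Adj w r ∧ f w ≠ r := by
    rintro w ⟨h1, h2⟩
    have h3 : w ≠ r := (G.ne_of_adj h1).symm
    refine ⟨h3, (show G.Adj r w from h1).symm, fun h4 => h2 ?_⟩
    exact tr_adj.2 ⟨h3.symm, Or.inr h4⟩
  obtain ⟨xr, xa, fx⟩ := hgen x hx
  obtain ⟨yr, ya, fy⟩ := hgen y hy
  have hdr : dg r f r = 1 := by
    rw [← dg_eq hf, hr1]
    rfl
  -- one update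
  have one : ∀ z, z ≠ r → G.Adj z r → f z ≠ r → dg r f (f z) = 2 := by
    intro z zr za fz
    have h1 := isPar_update hf zr
    have h2 := update_le hfG za
    have h3 := dg_sq_iso hf h1 (hiso _ _ hfG h2 (hTree V r f hf) (hTree V r _ h1))
    have h4 : ∀ v, dg r (Function.update f z r) v ^ 2 = dg r f v ^ 2 +
        ((if v = r then 2 * dg r f v + 1 else 0) + (if v = f z then 1 - 2 * dg r f v else 0)) := by
      intro v
      rw [dg_update zr]
      by_cases e1 : v = r
      · have e2 : v ≠ f z := fun h => fz (h.symm.trans e1)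
        simp only [if_pos e1, if_neg e2]
        ring
      · by_cases e2 : v = f z
        · simp only [if_neg e1, if_pos e2]
          ring
        · simp only [if_neg e1, if_neg e2]
          ring
    simp_rw [h4, Finset.sum_add_distrib] at h3
    rw [Finset.sum_ite_eq' Finset.univ r, Finset.sum_ite_eq' Finset.univ (f z)] at h3
    simp only [Finset.mem_univ, if_true] at h3
    rw [hdr] at h3
    linarith
  have hfx := one x xr xa fx
  have hfy := one y yr ya fy
  -- different parents
  have hne : f x ≠ f y := by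
    intro h
    have h1 : (2 : ℤ) ≤ ch r f (f x) := by
      unfold ch
      have h2 : ∑ w ∈ ({x, y} : Finset V), (if w ≠ r ∧ f w = f x then (1 : ℤ) else 0) ≤
          ∑ w : V, (if w ≠ r ∧ f w = f x then (1 : ℤ) else 0) := by
        refine Finset.sum_le_sum_of_subset_of_nonneg (Finset.subset_univ _) fun w _ _ => ?_
        split_ifs <;> norm_num
      rw [Finset.sum_pair hxy, if_pos ⟨xr, rfl⟩, if_pos ⟨yr, h.symm⟩] at h2
      linarith
    unfold dg at hfx
    rw [if_neg fx] at hfx
    linarith
  -- two updates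
  have k1 := isPar_update hf xr
  have k2 := isPar_update k1 yr
  have k3 := update_le (update_le hfG xa) ya
  have k4 := dg_sq_iso hf k2 (hiso _ _ hfG k3 (hTree V r f hf) (hTree V r _ k2))
  have k5 : ∀ v, dg r (Function.update (Function.update f x r) y r) v ^ 2 = dg r f v ^ 2 +
      ((if v = r then 4 * dg r f v + 4 else 0) + ((if v = f x then 1 - 2 * dg r f v else 0) +
        (if v = f y then 1 - 2 * dg r f v else 0))) := by
    intro v
    rw [dg_update yr, dg_update xr, Function.update_of_ne hxy.symm]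
    by_cases e1 : v = r
    · have e2 : v ≠ f x := fun h => fx (h.symm.trans e1)
      have e3 : v ≠ f y := fun h => fy (h.symm.trans e1)
      simp only [if_pos e1, if_neg e2, if_neg e3]
      ring
    · by_cases e2 : v = f x
      · have e3 : v ≠ f y := fun h => hne (e2.symm.trans h)
        simp only [if_neg e1, if_pos e2, if_neg e3]
        ring
      · by_cases e3 : v = f y
        · simp only [if_neg e1, if_neg e2, if_pos e3]
          ring
        · simp only [if_neg e1, if_neg e2, if_neg e3]
          ring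
  simp_rw [k5, Finset.sum_add_distrib] at k4
  rw [Finset.sum_ite_eq' Finset.univ r, Finset.sum_ite_eq' Finset.univ (f x),
    Finset.sum_ite_eq' Finset.univ (f y)] at k4
  simp only [Finset.mem_univ, if_true] at k4
  rw [hdr, hfx, hfy] at k4
  linarith

end Pool.Agent.Q162.ST
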